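import Pool.Agent.Helper451.Purisch.Space

set_option autoImplicit false
open TopologicalSpace Set

namespace Pool.Agent.Helper451.Purisch

/-- radius statement -/
lemma exists_radius (p : P) (U : Set P) (hU : IsOpen U) (hp : p ∈ U) : ∃ r : ℝ, 0 < r ∧
    (LR p → ∀ q, pr p - r < pr q → pr q < pr p → q ∈ U) ∧
    (RR p → ∀ q, pr p < pr q → pr q < pr p + r → q ∈ U) := by
  have h1 : ∃ r : ℝ, 0 < r ∧ (LR p → ∀ q, pr p - r < pr q → pr q < pr p → q ∈ U) := by
    by_cases h : LR p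
    · obtain ⟨e, he, h'⟩ := (hU p hp).1 h
      exact ⟨e, he, fun _ => h'⟩
    · exact ⟨1, one_pos, fun h' => absurd h' h⟩
  have h2 : ∃ r : ℝ, 0 < r ∧ (RR p → ∀ q, pr p < pr q → pr q < pr p + r → q ∈ U) := by
    by_cases h : RR p
    · obtain ⟨e, he, h'⟩ := (hU p hp).2 h
      exact ⟨e, he, fun _ => h'⟩
    · exact ⟨1, one_pos, fun h' => absurd h' h⟩
  obtain ⟨r1, a1, b1⟩ := h1
  obtain ⟨r2, a2, b2⟩ := h2
  refine ⟨min r1 r2, lt_min a1 a2, fun h q x y => b1 h q ?_ y, fun h q x y => b2 h q x ?_⟩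
  · linarith [min_le_left r1 r2]
  · linarith [min_le_right r1 r2]

/-- the standard small neighbourhood -/
def Nb (p : P) (r : ℝ) : Set P :=
  {q | q = p ∨ (LR p ∧ pr p - r < pr q ∧ pr q < pr p) ∨ (RR p ∧ pr p < pr q ∧ pr q < pr p + r)}

lemma isOpen_Nb (p : P) {r : ℝ} (hr : 0 < r) : IsOpen (Nb p r) := by
  intro z hz
  refine ⟨fun h => ?_, fun h => ?_⟩
  · rcases hz with hz | ⟨hL, h1, h2⟩ | ⟨hR, h1, h2⟩
    · subst hz
      exact ⟨r, hr, fun q a b => Or.inr (Or.inl ⟨h, a, b⟩)⟩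
    · exact ⟨pr z - (pr p - r), by linarith, fun q a b => Or.inr (Or.inl ⟨hL, by linarith, by linarith⟩)⟩
    · exact ⟨pr z - pr p, by linarith, fun q a b => Or.inr (Or.inr ⟨hR, by linarith, by linarith⟩)⟩
  · rcases hz with hz | ⟨hL, h1, h2⟩ | ⟨hR, h1, h2⟩
    · subst hz
      exact ⟨r, hr, fun q a b => Or.inr (Or.inr ⟨h, a, b⟩)⟩
    · exact ⟨pr p - pr z, by linarith, fun q a b => Or.inr (Or.inl ⟨hL, by linarith, by linarith⟩)⟩
    · exact ⟨pr p + r - pr z, by linarith, fun q a b => Or.inr (Or.inr ⟨hR, by linarith, by linarith⟩)⟩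

/-- the two points of one fibre do not reach the same side -/
lemma fibre_disj {p q : P} (hpq : pr p = pr q) (hne : p ≠ q) (h : RR p) : ¬ RR q := by
  intro h'
  apply hne
  refine P_ext hpq ?_
  rcases h with ⟨a, b⟩ | ⟨a, b⟩ <;> rcases h' with ⟨c, d⟩ | ⟨c, d⟩
  · rw [b, d]
  · rw [hpq] at a
    exact absurd a c
  · rw [← hpq] at c
    exact absurd c a
  · rw [b, d]

lemma fibre_disjL {p q : P} (hpq : pr p = pr q) (hne : p ≠ q) (h : LR p) : ¬ LR q := by
  intro h'
  exact hne (P_ext hpq (h.trans h'.symm))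

/-- the key separation property, in the case `pr p < pr q` -/
lemma mn_lt {p q z : P} {U V : Set P} {r r' : ℝ} (hr : 0 < r) (hr' : 0 < r')
    (hUR : RR p → ∀ w, pr p < pr w → pr w < pr p + r → w ∈ U)
    (hVL : LR q → ∀ w, pr q - r' < pr w → pr w < pr q → w ∈ V)
    (hlt : pr p < pr q) (hz1 : z ∈ Nb p (r / 2)) (hz2 : z ∈ Nb q (r' / 2)) : p ∈ V ∨ q ∈ U := by
  rcases hz1 with hz1 | ⟨hL, h1, h2⟩ | ⟨hR, h1, h2⟩
  · subst hz1
    rcases hz2 with hz2 | ⟨hL', h1', h2'⟩ | ⟨hR', h1', h2'⟩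
    · subst hz2
      exact absurd hlt (lt_irrefl _)
    · exact Or.inl (hVL hL' z (by linarith) h2')
    · linarith
  · rcases hz2 with hz2 | ⟨hL', h1', h2'⟩ | ⟨hR', h1', h2'⟩
    · subst hz2
      linarith
    · exact Or.inl (hVL hL' p (by linarith) hlt)
    · linarith
  · rcases hz2 with hz2 | ⟨hL', h1', h2'⟩ | ⟨hR', h1', h2'⟩
    · subst hz2
      exact Or.inr (hUR hR z h1 (by linarith))
    · rcases le_total r r' with hrr | hrr
      · exact Or.inl (hVL hL' p (by linarith) hlt)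
      · exact Or.inr (hUR hR q hlt (by linarith))
    · exact Or.inr (hUR hR q hlt (by linarith))

/-- monotone normality -/
theorem mn : ∃ H : P → Set P → Set P,
    (∀ (x : P) (U : Set P), IsOpen U → x ∈ U → IsOpen (H x U) ∧ x ∈ H x U ∧ H x U ⊆ U) ∧
    (∀ (x y : P) (U V : Set P), IsOpen U → IsOpen V → x ∈ U → y ∈ V →
        (H x U ∩ H y V).Nonempty → x ∈ V ∨ y ∈ U) := by
  classical
  let R : P → Set P → ℝ := fun p U =>
    if h : IsOpen U ∧ p ∈ U then Classical.choose (exists_radius p U h.1 h.2) else 1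
  have hR : ∀ p U, IsOpen U → p ∈ U → 0 < R p U ∧
      (LR p → ∀ q, pr p - R p U < pr q → pr q < pr p → q ∈ U) ∧
      (RR p → ∀ q, pr p < pr q → pr q < pr p + R p U → q ∈ U) := by
    intro p U hU hp
    have h : IsOpen U ∧ p ∈ U := ⟨hU, hp⟩
    have : R p U = Classical.choose (exists_radius p U h.1 h.2) := dif_pos h
    rw [this]
    exact Classical.choose_spec (exists_radius p U h.1 h.2)
  refine ⟨fun p U => Nb p (R p U / 2), ?_, ?_⟩
  · intro x U hU hx
    obtain ⟨h1, h2, h3⟩ := hR x U hU hx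
    refine ⟨isOpen_Nb x (by linarith), Or.inl rfl, ?_⟩
    intro q hq
    rcases hq with hq | ⟨hL, a, b⟩ | ⟨hR', a, b⟩
    · rw [hq]
      exact hx
    · exact h2 hL q (by linarith) b
    · exact h3 hR' q a (by linarith)
  · intro x y U V hU hV hx hy ⟨z, hz1, hz2⟩
    obtain ⟨a1, a2, a3⟩ := hR x U hU hx
    obtain ⟨b1, b2, b3⟩ := hR y V hV hy
    rcases lt_trichotomy (pr x) (pr y) with h | h | h
    · exact mn_lt a1 b1 a3 b2 h hz1 hz2
    · by_cases hxy : x = y
      · left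
        rw [hxy]
        exact hy
      · exfalso
        rcases hz1 with hz1 | ⟨hL, h1, h2⟩ | ⟨hR, h1, h2⟩
        · subst hz1
          rcases hz2 with hz2 | ⟨hL', h1', h2'⟩ | ⟨hR', h1', h2'⟩
          · exact hxy hz2
          · linarith
          · linarith
        · rcases hz2 with hz2 | ⟨hL', h1', h2'⟩ | ⟨hR', h1', h2'⟩
          · subst hz2
            linarith
          · exact fibre_disjL h hxy hL hL'
          · linarith
        · rcases hz2 with hz2 | ⟨hL', h1', h2'⟩ | ⟨hR', h1', h2'⟩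
          · subst hz2
            linarith
          · linarith
          · exact fibre_disj h hxy hR hR'
    · exact (mn_lt b1 a1 b3 a2 h hz2 hz1).symm

end Pool.Agent.Helper451.Purisch
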