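import Pool.Agent.Helper451.Purisch.Space

set_option autoImplicit false
open TopologicalSpace Set

namespace Pool.Agent.Helper451.Purisch

section
variable [LinearOrder P] [OrderTopology P]

/-- For irrational `x` in `(0,1)` the convex component of the right cut is a neighbourhood. -/
lemma right_comp {x : ℝ} (hx : Irrational x) (h01 : x ∈ Set.Icc (0:ℝ) 1) :
    ∃ V : Set P, V.OrdConnected ∧ V ⊆ Rt x ∧ ∃ ε : ℝ, 0 < ε ∧ ∀ q, x < pr q → pr q < x + ε → q ∈ V := by
  let p : P := mk x h01 true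
  have hp : p ∈ Rt x := Or.inr ⟨rfl, rfl⟩
  have hnh : Rt x ∈ nhds p := (isOpen_Rt hx).mem_nhds hp
  have h2 : (Rt x).ordConnectedComponent p ∈ nhds p := ordConnectedComponent_mem_nhds.mpr hnh
  have hRR : RR p := Or.inl ⟨by simpa [p] using hx, rfl⟩
  obtain ⟨e, he, h⟩ := mem_nhds_right hRR h2
  exact ⟨_, inferInstance, ordConnectedComponent_subset, e, he, h⟩

lemma left_comp {x : ℝ} (hx : Irrational x) (h01 : x ∈ Set.Icc (0:ℝ) 1) :
    ∃ V : Set P, V.OrdConnected ∧ V ⊆ Lt x ∧ ∃ ε : ℝ, 0 < ε ∧ ∀ q, x - ε < pr q → pr q < x → q ∈ V := by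
  let p : P := mk x h01 false
  have hp : p ∈ Lt x := Or.inr ⟨rfl, rfl⟩
  have hnh : Lt x ∈ nhds p := (isOpen_Lt hx).mem_nhds hp
  have h2 : (Lt x).ordConnectedComponent p ∈ nhds p := ordConnectedComponent_mem_nhds.mpr hnh
  have hLR : LR p := rfl
  obtain ⟨e, he, h⟩ := mem_nhds_left hLR h2
  exact ⟨_, inferInstance, ordConnectedComponent_subset, e, he, h⟩

/-- the set of cuts which are good with radius `1/(n+1)` -/
def T (n : ℕ) : Set ℝ := {x |
  (∃ V : Set P, V.OrdConnected ∧ V ⊆ Rt x ∧ ∀ q, x < pr q → pr q < x + 1 / (n + 1 : ℝ) → q ∈ V) ∧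
  (∃ V : Set P, V.OrdConnected ∧ V ⊆ Lt x ∧ ∀ q, x - 1 / (n + 1 : ℝ) < pr q → pr q < x → q ∈ V)}

lemma irr_mem_T {x : ℝ} (hx : Irrational x) (h01 : x ∈ Set.Icc (0:ℝ) 1) : ∃ n, x ∈ T n := by
  obtain ⟨V, a1, a2, e, he, a3⟩ := right_comp hx h01
  obtain ⟨W, b1, b2, e', he', b3⟩ := left_comp hx h01
  obtain ⟨n, hn⟩ := exists_nat_one_div_lt (lt_min he he')
  have h1 := min_le_left e e'
  have h2 := min_le_right e e'
  exact ⟨n, ⟨V, a1, a2, fun q h h' => a3 q h (by linarith)⟩,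
    ⟨W, b1, b2, fun q h h' => b3 q (by linarith) h'⟩⟩

/-- Baire: on some interval the good cuts of one radius are dense. -/
lemma exists_interval : ∃ (n : ℕ) (u v : ℝ), u < v ∧ 0 < u ∧ v < 1 ∧ v - u < 1 / (n + 1 : ℝ) ∧
    ∀ a b : ℝ, u ≤ a → a < b → b ≤ v → ∃ x ∈ T n, a < x ∧ x < b := by
  have hcl : ∀ n : ℕ, IsClosed (closure (T n) ∪ (Set.Ioo (0:ℝ) 1)ᶜ) := fun n =>
    isClosed_closure.union isOpen_Ioo.isClosed_compl
  have hcov : {x : ℝ | Irrational x} ⊆ ⋃ n : ℕ, (closure (T n) ∪ (Set.Ioo (0:ℝ) 1)ᶜ) := by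
    intro x hx
    by_cases h : x ∈ Set.Ioo (0:ℝ) 1
    · obtain ⟨n, hn⟩ := irr_mem_T hx ⟨h.1.le, h.2.le⟩
      exact Set.mem_iUnion.mpr ⟨n, Or.inl (subset_closure hn)⟩
    · exact Set.mem_iUnion.mpr ⟨0, Or.inr h⟩
  have hdense := IsGδ.dense_iUnion_interior_of_closed IsGδ.setOf_irrational dense_irrational hcl hcov
  obtain ⟨x, hx1, hx2⟩ := hdense.inter_open_nonempty (Set.Ioo (0:ℝ) 1) isOpen_Ioo ⟨1/2, by norm_num, by norm_num⟩
  obtain ⟨n, hn⟩ := Set.mem_iUnion.mp hx2
  have hop : IsOpen (interior (closure (T n) ∪ (Set.Ioo (0:ℝ) 1)ᶜ) ∩ Set.Ioo (0:ℝ) 1) :=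
    isOpen_interior.inter isOpen_Ioo
  obtain ⟨e, he, hball⟩ := Metric.isOpen_iff.mp hop x ⟨hn, hx1⟩
  set d : ℝ := min (e / 2) (1 / (n + 1 : ℝ) / 4) with hd
  have hn0 : (0:ℝ) < 1 / (n + 1 : ℝ) := by positivity
  have hdpos : 0 < d := lt_min (by linarith) (by linarith)
  have hd1 : d ≤ e / 2 := min_le_left _ _
  have hd2 : d ≤ 1 / (n + 1 : ℝ) / 4 := min_le_right _ _
  have hsub : ∀ y, x - d ≤ y → y ≤ x + d → y ∈ closure (T n) ∧ 0 < y ∧ y < 1 := by
    intro y h1 h2
    have : y ∈ Metric.ball x e := by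
      rw [Metric.mem_ball, Real.dist_eq, abs_lt]
      constructor <;> linarith
    have h3 := hball this
    have h4 := interior_subset h3.1
    rcases h4 with h4 | h4
    · exact ⟨h4, h3.2.1, h3.2.2⟩
    · exact absurd h3.2 h4
  refine ⟨n, x - d, x + d, by linarith, (hsub (x - d) le_rfl (by linarith)).2.1,
    (hsub (x + d) (by linarith) le_rfl).2.2, by linarith, ?_⟩
  intro a b h1 h2 h3
  have hc := (hsub ((a + b) / 2) (by linarith) (by linarith)).1
  rw [mem_closure_iff] at hc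
  obtain ⟨y, hy1, hy2⟩ := hc (Set.Ioo a b) isOpen_Ioo ⟨by linarith, by linarith⟩
  exact ⟨y, hy2, hy1.1, hy1.2⟩

/-- A space with these properties cannot be ordered. -/
theorem false_of_order : False := by
  obtain ⟨n, u, v, huv, hu0, hv1, hlen, hT⟩ := exists_interval
  -- betweenness
  have bet : ∀ a b c : P, u < pr a → pr a < pr b → pr b < pr c → pr c < v →
      (a < b ∧ b < c) ∨ (c < b ∧ b < a) := by
    intro a b c h0 h1 h2 h3
    obtain ⟨x, ⟨⟨V, hV1, hV2, hV3⟩, _⟩, hx1, hx2⟩ := hT (pr a) (pr b) h0.le h1 (by linarith)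
    obtain ⟨y, ⟨_, ⟨W, hW1, hW2, hW3⟩⟩, hy1, hy2⟩ := hT (pr b) (pr c) (by linarith) h2 h3.le
    have hbV : b ∈ V := hV3 b hx2 (by linarith)
    have hcV : c ∈ V := hV3 c (by linarith) (by linarith)
    have haW : a ∈ W := hW3 a (by linarith) (by linarith)
    have hbW : b ∈ W := hW3 b (by linarith) (by linarith)
    have haV : a ∉ V := by
      intro h
      rcases hV2 h with h' | ⟨h', _⟩ <;> linarith
    have hcW : c ∉ W := by
      intro h
      rcases hW2 h with h' | ⟨h', _⟩ <;> linarith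
    have hab : a ≠ b := by
      rintro rfl
      exact lt_irrefl _ h1
    rcases lt_or_gt_of_ne hab with hlt | hlt
    · left
      refine ⟨hlt, ?_⟩
      by_contra hbc
      have hcb : c ≤ b := not_lt.mp hbc
      rcases le_total c a with hca | hca
      · exact haV (hV1.out hcV hbV ⟨hca, hlt.le⟩)
      · exact hcW (hW1.out haW hbW ⟨hca, hcb⟩)
    · right
      refine ⟨?_, hlt⟩
      by_contra hbc
      have hcb : b ≤ c := not_lt.mp hbc
      rcases le_total c a with hca | hca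
      · exact hcW (hW1.out hbW haW ⟨hcb, hca⟩)
      · exact haV (hV1.out hbV hcV ⟨hlt.le, hca⟩)
  -- a rational in the middle
  obtain ⟨s, hs1, hs2⟩ := exists_rat_btwn huv
  have hs01 : (s : ℝ) ∈ Set.Icc (0:ℝ) 1 := ⟨by linarith, by linarith⟩
  let m : P := mk s hs01 false
  let h : P := mk s hs01 true
  have hm : pr m = s := rfl
  have hh : pr h = s := rfl
  have hmh : m ≠ h := by
    intro hc
    have := congrArg sd hc
    simp [m, h] at this
  have hLm : LR m := rfl
  have hRm : RR m := Or.inr ⟨by rw [hm]; exact s.not_irrational, rfl⟩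
  let a0 : P := mk ((u + s) / 2) ⟨by linarith, by linarith⟩ false
  let c0 : P := mk ((s + v) / 2) ⟨by linarith, by linarith⟩ false
  have ha0 : pr a0 = (u + s) / 2 := rfl
  have hc0 : pr c0 = (s + v) / 2 := rfl
  -- closures
  have clL : ∀ S : Set P, IsClosed S → (∀ a, u < pr a → pr a < s → a ∈ S) → m ∈ S := by
    intro S hS hSa
    by_contra hmS
    obtain ⟨e, he, h'⟩ := mem_nhds_left hLm (hS.isOpen_compl.mem_nhds hmS)
    have hlt : max u (s - e) < s := max_lt hs1 (by linarith)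
    obtain ⟨y, hy1, hy2⟩ := exists_between hlt
    have hyu : u < y := lt_of_le_of_lt (le_max_left _ _) hy1
    have hye : s - e < y := lt_of_le_of_lt (le_max_right _ _) hy1
    have hy01 : y ∈ Set.Icc (0:ℝ) 1 := ⟨by linarith, by linarith⟩
    exact h' (mk y hy01 false) (by rw [hm]; exact hye) (by rw [hm]; exact hy2)
      (hSa _ (by simpa using hyu) (by simpa using hy2))
  have clR : ∀ S : Set P, IsClosed S → (∀ a, s < pr a → pr a < v → a ∈ S) → m ∈ S := by
    intro S hS hSa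
    by_contra hmS
    obtain ⟨e, he, h'⟩ := mem_nhds_right hRm (hS.isOpen_compl.mem_nhds hmS)
    have hlt : (s:ℝ) < min v (s + e) := lt_min hs2 (by linarith)
    obtain ⟨y, hy1, hy2⟩ := exists_between hlt
    have hyv : y < v := lt_of_lt_of_le hy2 (min_le_left _ _)
    have hye : y < s + e := lt_of_lt_of_le hy2 (min_le_right _ _)
    have hy01 : y ∈ Set.Icc (0:ℝ) 1 := ⟨by linarith, by linarith⟩
    exact h' (mk y hy01 false) (by rw [hm]; exact hy1) (by rw [hm]; exact hye)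
      (hSa _ (by simpa using hy1) (by simpa using hyv))
  rcases bet a0 m c0 (by rw [ha0]; linarith) (by rw [ha0, hm]; linarith) (by rw [hc0, hm]; linarith)
    (by rw [hc0]; linarith) with ⟨h1, h2⟩ | ⟨h1, h2⟩
  · -- increasing
    have hleft : ∀ a, u < pr a → pr a < s → a ≤ h := by
      intro a h3 h4
      rcases bet a m c0 h3 (by rw [hm]; exact h4) (by rw [hc0, hm]; linarith) (by rw [hc0]; linarith)
        with ⟨h5, h6⟩ | ⟨h5, h6⟩
      · rcases bet a h c0 h3 (by rw [hh]; exact h4) (by rw [hc0, hh]; linarith) (by rw [hc0]; linarith)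
          with ⟨h7, h8⟩ | ⟨h7, h8⟩
        · exact h7.le
        · exact absurd ((h5.trans h6).trans (h7.trans h8)) (lt_irrefl _)
      · exact absurd (h5.trans h2) (lt_irrefl _)
    have hright : ∀ a, s < pr a → pr a < v → h ≤ a := by
      intro a h3 h4
      rcases bet a0 m a (by rw [ha0]; linarith) (by rw [ha0, hm]; linarith) (by rw [hm]; exact h3) h4
        with ⟨h5, h6⟩ | ⟨h5, h6⟩
      · rcases bet a0 h a (by rw [ha0]; linarith) (by rw [ha0, hh]; linarith) (by rw [hh]; exact h3) h4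
          with ⟨h7, h8⟩ | ⟨h7, h8⟩
        · exact h8.le
        · exact absurd ((h5.trans h6).trans (h7.trans h8)) (lt_irrefl _)
      · exact absurd (h6.trans h1) (lt_irrefl _)
    exact hmh (le_antisymm (clL (Set.Iic h) isClosed_Iic hleft) (clR (Set.Ici h) isClosed_Ici hright))
  · -- decreasing : c0 < m < a0
    have hleft : ∀ a, u < pr a → pr a < s → h ≤ a := by
      intro a h3 h4
      rcases bet a m c0 h3 (by rw [hm]; exact h4) (by rw [hc0, hm]; linarith) (by rw [hc0]; linarith)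
        with ⟨h5, h6⟩ | ⟨h5, h6⟩
      · exact absurd (h6.trans h1) (lt_irrefl _)
      · rcases bet a h c0 h3 (by rw [hh]; exact h4) (by rw [hc0, hh]; linarith) (by rw [hc0]; linarith)
          with ⟨h7, h8⟩ | ⟨h7, h8⟩
        · exact absurd ((h5.trans h6).trans (h7.trans h8)) (lt_irrefl _)
        · exact h8.le
    have hright : ∀ a, s < pr a → pr a < v → a ≤ h := by
      intro a h3 h4
      rcases bet a0 m a (by rw [ha0]; linarith) (by rw [ha0, hm]; linarith) (by rw [hm]; exact h3) h4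
        with ⟨h5, h6⟩ | ⟨h5, h6⟩
      · exact absurd (h5.trans h2) (lt_irrefl _)
      · rcases bet a0 h a (by rw [ha0]; linarith) (by rw [ha0, hh]; linarith) (by rw [hh]; exact h3) h4
          with ⟨h7, h8⟩ | ⟨h7, h8⟩
        · exact absurd ((h5.trans h6).trans (h7.trans h8)) (lt_irrefl _)
        · exact h7.le
    exact hmh (le_antisymm (clR (Set.Iic h) isClosed_Iic hright) (clL (Set.Ici h) isClosed_Ici hleft))

end

end Pool.Agent.Helper451.Purisch
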