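import Mathlib

set_option autoImplicit false
open TopologicalSpace Set

namespace Pool.Agent.Helper451.Purisch

/-- The underlying set: `[0,1] × {0,1}`. -/
def P : Type := Set.Icc (0:ℝ) 1 × Bool

/-- First coordinate. -/
def pr (p : P) : ℝ := (p.1 : ℝ)

/-- second coordinate -/
def sd (p : P) : Bool := p.2

lemma pr_mem (p : P) : 0 ≤ pr p ∧ pr p ≤ 1 := p.1.2

/-- build a point -/
def mk (t : ℝ) (h : t ∈ Set.Icc (0:ℝ) 1) (b : Bool) : P := (⟨t, h⟩, b)

@[simp] lemma pr_mk (t : ℝ) (h : t ∈ Set.Icc (0:ℝ) 1) (b : Bool) : pr (mk t h b) = t := rfl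
@[simp] lemma sd_mk (t : ℝ) (h : t ∈ Set.Icc (0:ℝ) 1) (b : Bool) : sd (mk t h b) = b := rfl

lemma P_ext {p q : P} (h1 : pr p = pr q) (h2 : sd p = sd q) : p = q := by
  rcases p with ⟨⟨a, ha⟩, b⟩
  rcases q with ⟨⟨a', ha'⟩, b'⟩
  simp only [pr] at h1
  simp only [sd] at h2
  subst h1
  subst h2
  rfl

/-- the point is a limit of points on its left -/
def LR (p : P) : Prop := sd p = false

/-- the point is a limit of points on its right -/
def RR (p : P) : Prop := (Irrational (pr p) ∧ sd p = true) ∨ (¬ Irrational (pr p) ∧ sd p = false)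

/-- open sets -/
def opn (U : Set P) : Prop := ∀ p ∈ U,
  (LR p → ∃ ε : ℝ, 0 < ε ∧ ∀ q, pr p - ε < pr q → pr q < pr p → q ∈ U) ∧
  (RR p → ∃ ε : ℝ, 0 < ε ∧ ∀ q, pr p < pr q → pr q < pr p + ε → q ∈ U)

instance topP : TopologicalSpace P where
  IsOpen := opn
  isOpen_univ := fun p _ => ⟨fun _ => ⟨1, one_pos, fun _ _ _ => trivial⟩,
    fun _ => ⟨1, one_pos, fun _ _ _ => trivial⟩⟩
  isOpen_inter := by
    intro U V hU hV p hp
    refine ⟨fun h => ?_, fun h => ?_⟩
    · obtain ⟨e1, h1, h1'⟩ := (hU p hp.1).1 h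
      obtain ⟨e2, h2, h2'⟩ := (hV p hp.2).1 h
      refine ⟨min e1 e2, lt_min h1 h2, fun q hq1 hq2 => ⟨h1' q ?_ hq2, h2' q ?_ hq2⟩⟩
      · linarith [min_le_left e1 e2]
      · linarith [min_le_right e1 e2]
    · obtain ⟨e1, h1, h1'⟩ := (hU p hp.1).2 h
      obtain ⟨e2, h2, h2'⟩ := (hV p hp.2).2 h
      refine ⟨min e1 e2, lt_min h1 h2, fun q hq1 hq2 => ⟨h1' q hq1 ?_, h2' q hq1 ?_⟩⟩
      · linarith [min_le_left e1 e2]
      · linarith [min_le_right e1 e2]
  isOpen_sUnion := by
    intro S hS p hp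
    obtain ⟨U, hU, hpU⟩ := hp
    refine ⟨fun h => ?_, fun h => ?_⟩
    · obtain ⟨e1, h1, h1'⟩ := (hS U hU p hpU).1 h
      exact ⟨e1, h1, fun q a b => ⟨U, hU, h1' q a b⟩⟩
    · obtain ⟨e1, h1, h1'⟩ := (hS U hU p hpU).2 h
      exact ⟨e1, h1, fun q a b => ⟨U, hU, h1' q a b⟩⟩

lemma isOpen_iff' (U : Set P) : IsOpen U ↔ opn U := Iff.rfl

lemma t1 : T1Space P := by
  refine ⟨fun p => ?_⟩
  rw [← isOpen_compl_iff]
  intro q hq
  have hne : q ≠ p := hq
  by_cases he : pr q = pr p
  · refine ⟨fun _ => ⟨1, one_pos, fun r h1 h2 h3 => ?_⟩, fun _ => ⟨1, one_pos, fun r h1 h2 h3 => ?_⟩⟩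
    · have : r = p := h3
      subst this
      exact absurd h2 (by rw [he]; exact lt_irrefl _)
    · have : r = p := h3
      subst this
      exact absurd h1 (by rw [he]; exact lt_irrefl _)
  · have hpos : 0 < |pr q - pr p| := abs_pos.mpr (sub_ne_zero.mpr he)
    refine ⟨fun _ => ⟨|pr q - pr p|, hpos, fun r h1 h2 h3 => ?_⟩,
      fun _ => ⟨|pr q - pr p|, hpos, fun r h1 h2 h3 => ?_⟩⟩
    · have : r = p := h3
      subst this
      rw [abs_of_pos (by linarith)] at h1
      linarith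
    · have : r = p := h3
      subst this
      rw [abs_of_neg (by linarith)] at h2
      linarith

/-- right part of the cut at `x` -/
def Rt (x : ℝ) : Set P := {q | x < pr q ∨ (pr q = x ∧ sd q = true)}
/-- left part of the cut at `x` -/
def Lt (x : ℝ) : Set P := {q | pr q < x ∨ (pr q = x ∧ sd q = false)}

lemma compl_Rt (x : ℝ) : (Rt x)ᶜ = Lt x := by
  ext q
  simp only [Rt, Lt, mem_compl_iff, mem_setOf_eq, not_or, not_and, not_lt]
  constructor
  · rintro ⟨h1, h2⟩
    rcases lt_or_eq_of_le h1 with h | h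
    · exact Or.inl h
    · right
      refine ⟨h, ?_⟩
      have := h2 h
      cases hs : sd q
      · rfl
      · exact absurd hs this
  · rintro (h | ⟨h1, h2⟩)
    · exact ⟨h.le, fun h' => absurd h' h.ne⟩
    · exact ⟨h1.le, fun _ => by simp [h2]⟩

lemma isOpen_Rt {x : ℝ} (hx : Irrational x) : IsOpen (Rt x) := by
  intro p hp
  refine ⟨fun h => ?_, fun h => ?_⟩
  · rcases hp with hp | ⟨hp1, hp2⟩
    · exact ⟨pr p - x, by linarith, fun q h1 h2 => Or.inl (by linarith)⟩
    · rw [LR, hp2] at h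
      exact absurd h (by simp)
  · have hle : x ≤ pr p := by
      rcases hp with hp | ⟨hp1, hp2⟩
      · exact hp.le
      · exact hp1.ge
    exact ⟨1, one_pos, fun q h1 h2 => Or.inl (by linarith)⟩

lemma isOpen_Lt {x : ℝ} (hx : Irrational x) : IsOpen (Lt x) := by
  intro p hp
  refine ⟨fun h => ?_, fun h => ?_⟩
  · have hle : pr p ≤ x := by
      rcases hp with hp | ⟨hp1, hp2⟩
      · exact hp.le
      · exact hp1.le
    exact ⟨1, one_pos, fun q h1 h2 => Or.inl (by linarith)⟩
  · rcases hp with hp | ⟨hp1, hp2⟩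
    · exact ⟨x - pr p, by linarith, fun q h1 h2 => Or.inl (by linarith)⟩
    · rw [RR, hp1] at h
      rcases h with ⟨_, h⟩ | ⟨h, _⟩
      · rw [hp2] at h
        exact absurd h (by simp)
      · exact absurd hx h

lemma compl_Lt (x : ℝ) : (Lt x)ᶜ = Rt x := by
  rw [← compl_Rt, compl_compl]

lemma isClopen_Rt {x : ℝ} (hx : Irrational x) : IsClopen (Rt x) := by
  refine ⟨?_, isOpen_Rt hx⟩
  rw [← isOpen_compl_iff, compl_Rt]
  exact isOpen_Lt hx

lemma isClopen_Lt {x : ℝ} (hx : Irrational x) : IsClopen (Lt x) := by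
  refine ⟨?_, isOpen_Lt hx⟩
  rw [← isOpen_compl_iff, compl_Lt]
  exact isOpen_Rt hx

/-- If a point reaches neither side then it is isolated. -/
lemma isOpen_iso {p : P} (h1 : ¬ LR p) (h2 : ¬ RR p) : IsOpen ({p} : Set P) := by
  intro q hq
  have : q = p := hq
  subst this
  exact ⟨fun h => absurd h h1, fun h => absurd h h2⟩

lemma isClopen_iso {p : P} (h1 : ¬ LR p) (h2 : ¬ RR p) : IsClopen ({p} : Set P) := by
  haveI := t1
  exact ⟨isClosed_singleton, isOpen_iso h1 h2⟩

/-- Left limits: membership in the neighbourhood filter. -/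
lemma mem_nhds_left {p : P} (hp : LR p) {U : Set P} (hU : U ∈ nhds p) :
    ∃ ε : ℝ, 0 < ε ∧ ∀ q, pr p - ε < pr q → pr q < pr p → q ∈ U := by
  obtain ⟨V, hVU, hV, hpV⟩ := mem_nhds_iff.mp hU
  obtain ⟨e, he, h⟩ := (hV p hpV).1 hp
  exact ⟨e, he, fun q a b => hVU (h q a b)⟩

lemma mem_nhds_right {p : P} (hp : RR p) {U : Set P} (hU : U ∈ nhds p) :
    ∃ ε : ℝ, 0 < ε ∧ ∀ q, pr p < pr q → pr q < pr p + ε → q ∈ U := by
  obtain ⟨V, hVU, hV, hpV⟩ := mem_nhds_iff.mp hU
  obtain ⟨e, he, h⟩ := (hV p hpV).2 hp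
  exact ⟨e, he, fun q a b => hVU (h q a b)⟩

/-- clopen base -/
lemma basis : IsTopologicalBasis {s : Set P | IsClopen s} := by
  refine isTopologicalBasis_of_isOpen_of_nhds (fun u hu => hu.2) ?_
  intro p U hpU hU
  -- the left cut
  have hleft : ∃ C : Set P, IsClopen C ∧ p ∈ C ∧ ∀ q ∈ C, pr q < pr p → q ∈ U := by
    by_cases h : LR p
    · obtain ⟨e, he, h'⟩ := (hU p hpU).1 h
      obtain ⟨x, hx, hx1, hx2⟩ := exists_irrational_btwn (show pr p - e < pr p by linarith)
      refine ⟨Rt x, isClopen_Rt hx, Or.inl hx2, fun q hq hqp => h' q ?_ hqp⟩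
      rcases hq with hq | ⟨hq, _⟩ <;> linarith
    · by_cases h2 : RR p
      · -- then p = (t, true) with t irrational
        have ht : Irrational (pr p) ∧ sd p = true := by
          rcases h2 with h2 | h2
          · exact h2
          · exact absurd h2.2 h
        refine ⟨Rt (pr p), isClopen_Rt ht.1, Or.inr ⟨rfl, ht.2⟩, fun q hq hqp => ?_⟩
        rcases hq with hq | ⟨hq, _⟩ <;> linarith
      · refine ⟨{p}, isClopen_iso h h2, rfl, fun q hq hqp => ?_⟩
        have : q = p := hq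
        subst this
        exact hpU
  have hright : ∃ C : Set P, IsClopen C ∧ p ∈ C ∧ ∀ q ∈ C, pr p < pr q → q ∈ U := by
    by_cases h : RR p
    · obtain ⟨e, he, h'⟩ := (hU p hpU).2 h
      obtain ⟨x, hx, hx1, hx2⟩ := exists_irrational_btwn (show pr p < pr p + e by linarith)
      refine ⟨Lt x, isClopen_Lt hx, Or.inl hx1, fun q hq hqp => h' q hqp ?_⟩
      rcases hq with hq | ⟨hq, _⟩ <;> linarith
    · by_cases h2 : LR p
      · -- then p = (t, false) with t irrational
        have ht : Irrational (pr p) := by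
          by_contra hc
          exact h (Or.inr ⟨hc, h2⟩)
        refine ⟨Lt (pr p), isClopen_Lt ht, Or.inr ⟨rfl, h2⟩, fun q hq hqp => ?_⟩
        rcases hq with hq | ⟨hq, _⟩ <;> linarith
      · refine ⟨{p}, isClopen_iso h2 h, rfl, fun q hq hqp => ?_⟩
        have : q = p := hq
        subst this
        exact hpU
  -- the fibre
  have hfib : ∃ C : Set P, IsClopen C ∧ p ∈ C ∧ ∀ q ∈ C, pr q = pr p → q = p := by
    by_cases hirr : Irrational (pr p)
    · cases hs : sd p
      · refine ⟨Lt (pr p), isClopen_Lt hirr, Or.inr ⟨rfl, hs⟩, fun q hq hqp => ?_⟩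
        rcases hq with hq | ⟨_, hq⟩
        · exact absurd hqp hq.ne
        · exact P_ext hqp (hq.trans hs.symm)
      · refine ⟨Rt (pr p), isClopen_Rt hirr, Or.inr ⟨rfl, hs⟩, fun q hq hqp => ?_⟩
        rcases hq with hq | ⟨_, hq⟩
        · exact absurd hqp hq.ne'
        · exact P_ext hqp (hq.trans hs.symm)
    · -- the isolated point over `pr p`
      have hiso1 : ¬ LR (mk (pr p) p.1.2 true) := by simp [LR]
      have hiso2 : ¬ RR (mk (pr p) p.1.2 true) := by
        rintro (h | h)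
        · exact hirr (by simpa using h.1)
        · simp at h
      cases hs : sd p
      · refine ⟨{mk (pr p) p.1.2 true}ᶜ, (isClopen_iso hiso1 hiso2).compl, ?_, fun q hq hqp => ?_⟩
        · intro h
          have h' : p = mk (pr p) p.1.2 true := h
          have := congrArg sd h'
          rw [hs] at this
          simp at this
        · cases hs' : sd q
          · exact P_ext hqp (hs'.trans hs.symm)
          · exact absurd (P_ext (by simpa using hqp) (by simpa using hs')) hq
      · have hp' : p = mk (pr p) p.1.2 true := P_ext rfl (by simpa using hs)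
        refine ⟨{mk (pr p) p.1.2 true}, isClopen_iso hiso1 hiso2, hp', fun q hq _ => ?_⟩
        have : q = mk (pr p) p.1.2 true := hq
        rw [this, ← hp']
  obtain ⟨C1, a1, b1, c1⟩ := hleft
  obtain ⟨C2, a2, b2, c2⟩ := hright
  obtain ⟨C3, a3, b3, c3⟩ := hfib
  refine ⟨C1 ∩ C2 ∩ C3, (a1.inter a2).inter a3, ⟨⟨b1, b2⟩, b3⟩, fun q hq => ?_⟩
  rcases lt_trichotomy (pr q) (pr p) with h | h | h
  · exact c1 q hq.1.1 h
  · rw [c3 q hq.2 h]
    exact hpU
  · exact c2 q hq.1.2 h

/-- separability -/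
lemma separable : SeparableSpace P := by
  let f : ℚ × Bool → Set P := fun r => {p | pr p = (r.1 : ℝ) ∧ sd p = r.2}
  have hf : ∀ r, (f r).Countable := by
    intro r
    refine Set.Subsingleton.countable ?_
    intro a ha b hb
    exact P_ext (ha.1.trans hb.1.symm) (ha.2.trans hb.2.symm)
  refine ⟨⋃ r, f r, Set.countable_iUnion hf, ?_⟩
  rw [dense_iff_inter_open]
  intro U hU ⟨p, hp⟩
  have key : ∀ a b : ℝ, a < b → 0 ≤ a → b ≤ 1 → (∀ q, a < pr q → pr q < b → q ∈ U) →
      (U ∩ ⋃ r, f r).Nonempty := by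
    intro a b hab ha hb h
    obtain ⟨r, h1, h2⟩ := exists_rat_btwn hab
    have hm : (r : ℝ) ∈ Set.Icc (0:ℝ) 1 := ⟨by linarith, by linarith⟩
    refine ⟨mk r hm false, h _ (by simpa using h1) (by simpa using h2), ?_⟩
    exact Set.mem_iUnion.mpr ⟨(r, false), by simp [f]⟩
  by_cases hirr : Irrational (pr p)
  · have h0 : 0 < pr p := by
      rcases (pr_mem p).1.lt_or_eq with h | h
      · exact h
      · exact absurd (h ▸ hirr) (by simpa using Rat.not_irrational 0)
    have h1 : pr p < 1 := by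
      rcases (pr_mem p).2.lt_or_eq with h | h
      · exact h
      · exact absurd (h ▸ hirr) (by simpa using Rat.not_irrational 1)
    cases hs : sd p
    · obtain ⟨e, he, h'⟩ := (hU p hp).1 hs
      refine key (max 0 (pr p - e)) (pr p) (max_lt h0 (by linarith)) (le_max_left _ _) h1.le ?_
      intro q hq1 hq2
      exact h' q (lt_of_le_of_lt (le_max_right _ _) hq1) hq2
    · obtain ⟨e, he, h'⟩ := (hU p hp).2 (Or.inl ⟨hirr, hs⟩)
      refine key (pr p) (min 1 (pr p + e)) (lt_min h1 (by linarith)) h0.le (min_le_left _ _) ?_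
      intro q hq1 hq2
      exact h' q hq1 (lt_of_lt_of_le hq2 (min_le_right _ _))
  · simp only [Irrational, not_not] at hirr
    obtain ⟨r, hr⟩ := hirr
    exact ⟨p, hp, Set.mem_iUnion.mpr ⟨(r, sd p), by simp [f, hr]⟩⟩

/-- compactness -/
lemma compact : CompactSpace P := by
  refine ⟨?_⟩
  rw [isCompact_iff_ultrafilter_le_nhds]
  intro F _
  have hlim : ∃ t ∈ Set.Icc (0:ℝ) 1, (F.map pr : Filter ℝ) ≤ nhds t := by
    have := (isCompact_iff_ultrafilter_le_nhds.mp (isCompact_Icc (a := (0:ℝ)) (b := 1)))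
      (F.map pr) ?_
    · obtain ⟨t, ht, h⟩ := this
      exact ⟨t, ht, h⟩
    · rw [Filter.le_principal_iff]
      change pr ⁻¹' (Set.Icc 0 1) ∈ (F : Filter P)
      exact Filter.univ_mem' (fun p => pr_mem p)
  obtain ⟨t, ht, hFt⟩ := hlim
  have hclose : ∀ ε : ℝ, 0 < ε → {q : P | t - ε < pr q ∧ pr q < t + ε} ∈ F := by
    intro ε hε
    exact hFt (Ioo_mem_nhds (by linarith) (by linarith))
  -- general conclusion
  have conv : ∀ p : P, (∀ U : Set P, IsOpen U → p ∈ U → U ∈ F) → ∃ x ∈ Set.univ, (F : Filter P) ≤ nhds x := by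
    intro p h
    refine ⟨p, trivial, ?_⟩
    intro S hS
    obtain ⟨V, hVS, hV, hpV⟩ := mem_nhds_iff.mp hS
    exact Filter.mem_of_superset (h V hV hpV) hVS
  by_cases hL : {q : P | pr q < t} ∈ F
  · refine conv (mk t ht false) (fun U hU hp => ?_)
    obtain ⟨e, he, h⟩ := (hU _ hp).1 rfl
    refine Filter.mem_of_superset (Filter.inter_mem hL (hclose e he)) ?_
    rintro q ⟨h1, h2, h3⟩
    exact h q (by simpa using h2) (by simpa using h1)
  by_cases hR : {q : P | t < pr q} ∈ F
  · by_cases hirr : Irrational t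
    · refine conv (mk t ht true) (fun U hU hp => ?_)
      obtain ⟨e, he, h⟩ := (hU _ hp).2 (Or.inl ⟨by simpa using hirr, rfl⟩)
      refine Filter.mem_of_superset (Filter.inter_mem hR (hclose e he)) ?_
      rintro q ⟨h1, h2, h3⟩
      exact h q (by simpa using h1) (by simpa using h3)
    · refine conv (mk t ht false) (fun U hU hp => ?_)
      obtain ⟨e, he, h⟩ := (hU _ hp).2 (Or.inr ⟨by simpa using hirr, rfl⟩)
      refine Filter.mem_of_superset (Filter.inter_mem hR (hclose e he)) ?_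
      rintro q ⟨h1, h2, h3⟩
      exact h q (by simpa using h1) (by simpa using h3)
  · -- the fibre
    have hL' : {q : P | pr q < t}ᶜ ∈ F := Ultrafilter.compl_mem_iff_notMem.mpr hL
    have hR' : {q : P | t < pr q}ᶜ ∈ F := Ultrafilter.compl_mem_iff_notMem.mpr hR
    by_cases hs : {q : P | sd q = true} ∈ F
    · refine conv (mk t ht true) (fun U hU hp => ?_)
      refine Filter.mem_of_superset (Filter.inter_mem (Filter.inter_mem hL' hR') hs) ?_
      rintro q ⟨⟨h1, h2⟩, h3⟩
      have : q = mk t ht true := by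
        refine P_ext ?_ h3
        simp only [mem_compl_iff, mem_setOf_eq, not_lt] at h1 h2
        exact le_antisymm h2 h1
      rw [this]
      exact hp
    · have hs' : {q : P | sd q = true}ᶜ ∈ F := Ultrafilter.compl_mem_iff_notMem.mpr hs
      refine conv (mk t ht false) (fun U hU hp => ?_)
      refine Filter.mem_of_superset (Filter.inter_mem (Filter.inter_mem hL' hR') hs') ?_
      rintro q ⟨⟨h1, h2⟩, h3⟩
      have : q = mk t ht false := by
        refine P_ext ?_ ?_
        · simp only [mem_compl_iff, mem_setOf_eq, not_lt] at h1 h2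
          exact le_antisymm h2 h1
        · simp only [mem_compl_iff, mem_setOf_eq] at h3
          simpa using h3
      rw [this]
      exact hp

end Pool.Agent.Helper451.Purisch
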